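import Pool.Agent.Lib.MP_8d00da_gt.h28k.Iface
import Pool.Agent.Lib.MP_8d00da_gt.h42k.S6c

/-!
# Change of coordinates: `W = V ∘ P`, `P Pᵀ = 1 + Cov V`, is in the class `KW κ`
-/

open scoped BigOperators InnerProductSpace

namespace Pool.Agent.Lib.MP_8d00da_gt.h61f

open h28k h42k

set_option linter.unusedSectionVars false

variable {ι : Type} [Fintype ι] [DecidableEq ι] {κ M : ℝ} {V : (ι → ℝ) → ℝ}

theorem exists_chg (H : Nice κ M V) :
    ∃ (M' : ℝ) (P : (ι → ℝ) ≃L[ℝ] (ι → ℝ)) (L' : Matrix ι ι ℝ),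
      (∀ z, P z = L'.mulVec z) ∧ L' * L'.transpose = 1 + CM V ∧ KW κ M' (fun z => V (P z)) := by
  obtain ⟨e, lam, he⟩ := exists_EB (CM_symm V)
  have hl := fun k => he.lam_nonneg H k
  set c : ι → ℝ := fun k => √(1 + lam k) with hc
  have hc1 : ∀ k, 1 ≤ c k := fun k => by
    rw [hc]
    exact Real.one_le_sqrt.2 (by linarith [hl k])
  have hc0 : ∀ k, c k ≠ 0 := fun k => by have := hc1 k; positivity
  have hc2 : ∀ k, c k ^ 2 = 1 + lam k := fun k => Real.sq_sqrt (by linarith [hl k])
  obtain ⟨P, hP⟩ := stv_equiv he hc0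
  set L' : Matrix ι ι ℝ := Matrix.of fun a k => c k * e k a with hL'
  set R : Matrix ι ι ℝ := Matrix.of fun k a => e k a / c k with hR
  have hPL : ∀ z, P z = L'.mulVec z := by
    intro z
    rw [hP]
    funext a
    simp only [stv, Matrix.mulVec, dotProduct, hL', Matrix.of_apply]
    exact Finset.sum_congr rfl fun k _ => by ring
  have hRP : ∀ x, R.mulVec (P x) = x := by
    intro x
    funext k
    have h1 := dt_stv he c x k
    rw [← hP] at h1
    simp only [Matrix.mulVec, dotProduct, hR, Matrix.of_apply]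
    have h2 : ∑ a, e k a / c k * P x a = dt (e k) (P x) / c k := by
      unfold dt
      rw [Finset.sum_div]
      exact Finset.sum_congr rfl fun a _ => by ring
    rw [h2, h1, mul_div_cancel_left₀ _ (hc0 k)]
  have hCM : ∀ a b, CM V a b = ∑ k, lam k * e k a * e k b := by
    intro a b
    have h1 := congrFun (he.mulVec (Pi.single b 1)) a
    have h2 : (CM V).mulVec (Pi.single b 1) a = CM V a b := by
      simp
    rw [h2] at h1
    rw [h1]
    refine Finset.sum_congr rfl fun k _ => ?_
    have h3 : dt (e k) (Pi.single b 1) = e k b := by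
      unfold dt
      simp [Pi.single_apply]
    rw [h3]
    ring
  have hLL : L' * L'.transpose = 1 + CM V := by
    ext a b
    simp only [Matrix.mul_apply, Matrix.transpose_apply, hL', Matrix.of_apply, Matrix.add_apply,
      Matrix.one_apply]
    rw [hCM, ← he.orth' a b, ← Finset.sum_add_distrib]
    refine Finset.sum_congr rfl fun k _ => ?_
    have := hc2 k
    calc c k * e k a * (c k * e k b) = c k ^ 2 * (e k a * e k b) := by ring
      _ = _ := by rw [this]; ring
  have hRL : R * L' = 1 := by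
    have h1 : ∀ x, (R * L').mulVec x = x := by
      intro x
      rw [← Matrix.mulVec_mulVec, ← hPL, hRP]
    ext i j
    have h2 := congrFun (h1 (Pi.single j 1)) i
    simp only [Matrix.mulVec_single_one, Matrix.col_apply] at h2
    rw [h2, Matrix.one_apply, Pi.single_apply]
  obtain ⟨M', hM'⟩ := stv_nice H he hc1
  have e1 : (fun y => V (stv e c y)) = fun y => V (P y) := by
    funext y
    rw [hP]
  rw [e1] at hM'
  refine ⟨M', P, L', hPL, hLL, hM', R, L', hRL, ?_, fun x u => ?_⟩
  · rw [CM_comp_lin H P R hRP]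
    calc R * R.transpose + R * CM V * R.transpose = R * (1 + CM V) * R.transpose := by
          rw [Matrix.mul_add, Matrix.mul_one, Matrix.add_mul]
      _ = R * L' * (R * L').transpose := by
          rw [← hLL, Matrix.transpose_mul]
          simp only [Matrix.mul_assoc]
      _ = 1 := by rw [hRL, Matrix.transpose_one, Matrix.mul_one]
  · have h1 := hs_comp (P : (ι → ℝ) →L[ℝ] (ι → ℝ)) H.c2 x u
    have h2 : hs (fun x => V (P x)) x u = hs V (P x) (P u) := h1
    rw [h2, ← hPL]
    exact H.lo _ _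

/-- The same in the form of `h28k/KLSN`. -/
theorem exists_kw (H : Nice κ M V) :
    ∃ (P : (ι → ℝ) ≃L[ℝ] (ι → ℝ)) (Q : Matrix ι ι ℝ) (M' : ℝ), (∀ z, P z = Q.mulVec z) ∧
      Q * Q.transpose = 1 + CM V ∧ KW κ M' (fun z => V (P z)) := by
  obtain ⟨M', P, L', h1, h2, h3⟩ := exists_chg H
  exact ⟨P, L', M', h1, h2, h3⟩

end Pool.Agent.Lib.MP_8d00da_gt.h61f
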