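import Pool.Agent.Lib.MP_8d00da_gt.h28k.Iface
import Pool.Agent.Lib.MP_8d00da_gt.h65a.Poly

/-!
# Reversal of words: from `h65a.tW` to `h28k.xwd`
-/

open scoped BigOperators InnerProductSpace

namespace Pool.Agent.Lib.MP_8d00da_gt.h61f

open h28k

set_option linter.unusedSectionVars false

variable {ι : Type*} [Fintype ι] [DecidableEq ι] {H : Type*} [NormedAddCommGroup H]
  [InnerProductSpace ℝ H]

theorem wd_append (T : ι → H →L[ℝ] H) (L : List ι) (i : ι) (g : H) :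
    wd T (L ++ [i]) g = wd T L (T i g) := by
  induction L with
  | nil => rfl
  | cons a L ih => simp [wd, ih]

theorem xwd_append (T : ι → H →L[ℝ] H) (x : ι → H) (a : ι) (L : List ι) (i : ι) (g : H) :
    xwd T x (a :: (L ++ [i])) g = xwd T x (a :: L) (T i g) := by
  simp [xwd, wd_append]

theorem ofFn_rev (l : ℕ) (w : Fin (l + 1) → ι) :
    List.ofFn (fun i => w (Fin.rev i)) = List.ofFn (fun i => Fin.tail w (Fin.rev i)) ++ [w 0] := by
  rw [List.ofFn_succ', List.concat_eq_append]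
  congr 2
  · funext i
    rw [Fin.rev_castSucc]
    rfl
  · rw [Fin.rev_last]

theorem tW_eq (T : ι → H →L[ℝ] H) (x : ι → H) (l : ℕ) : ∀ (w : Fin (l + 1) → ι) (g : H),
    h65a.tW T x l w g = xwd T x (List.ofFn fun i => w (Fin.rev i)) g := by
  induction l with
  | zero =>
    intro w g
    simp [h65a.tW, xwd, wd]
  | succ l ih =>
    intro w g
    rw [h65a.tW, ih, ofFn_rev (l + 1) w, List.ofFn_succ, List.cons_append, xwd_append]

/-- Sums over words are invariant under reversal. -/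
theorem sum_rev (l : ℕ) (F : (Fin l → ι) → ℝ) :
    ∑ w : Fin l → ι, F (fun i => w (Fin.rev i)) = ∑ w : Fin l → ι, F w := by
  refine Fintype.sum_bijective (fun w : Fin l → ι => fun i => w (Fin.rev i)) ?_ _ _ fun w => rfl
  refine Function.Involutive.bijective fun w => ?_
  funext i
  simp

/-- From the inequality (P) for polynomials of degree `≤ l + 1` to the moment bound. -/
theorem momT_of_P (T : ι → H →L[ℝ] H) (x : ι → H) (E : MvPolynomial ι ℝ →ₗ[ℝ] ℝ)
    (hE : E 1 = 1) (cl : MvPolynomial ι ℝ →ₗ[ℝ] H) (hcl : cl 1 = 0)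
    (hib : ∀ (f : MvPolynomial ι ℝ) (g : H), ⟪cl f, g⟫_ℝ =
      ∑ i, (E (MvPolynomial.pderiv i f) * ⟪x i, g⟫_ℝ + ⟪cl (MvPolynomial.pderiv i f), T i g⟫_ℝ))
    (l : ℕ) (p : ℕ → ℝ)
    (hP : ∀ f : MvPolynomial ι ℝ, f.totalDegree ≤ l + 1 →
      ‖cl f‖ ^ 2 ≤ ∑ j ∈ Finset.range (l + 1), p j *
        ∑ w : Fin (j + 1) → ι, E (h65a.dW (j + 1) w f) ^ 2) :
    MomT T x (l + 1) (p l) := by
  intro C hC g
  have h := h65a.appell_bound T x E hE cl hcl hib l p hP C (fun σ w => hC σ w) g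
  have e : ∑ I : Fin (l + 1) → ι, C I * xwd T x (List.ofFn I) g =
      ∑ w, C w * h65a.tW T x l w g := by
    rw [← sum_rev (l + 1) fun I => C I * xwd T x (List.ofFn I) g]
    refine Finset.sum_congr rfl fun w _ => ?_
    rw [tW_eq]
    congr 1
    exact hC Fin.revPerm w
  rw [e]
  exact h

theorem sum_tW_le (T : ι → H →L[ℝ] H) (x : ι → H)
    (hx : ∀ g : H, ∑ i, ⟪x i, g⟫_ℝ ^ 2 ≤ ‖g‖ ^ 2) (j : ℕ) (g : H) :
    ∑ w : Fin (j + 1) → ι, h65a.tW T x j w g ^ 2 ≤ aT T j g := by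
  have e : ∑ w : Fin (j + 1) → ι, h65a.tW T x j w g ^ 2 =
      ∑ I : Fin (j + 1) → ι, xwd T x (List.ofFn I) g ^ 2 := by
    rw [← sum_rev (j + 1) fun I => xwd T x (List.ofFn I) g ^ 2]
    exact Finset.sum_congr rfl fun w _ => by rw [tW_eq]
  rw [e, ← (Fin.consEquiv (fun _ : Fin (j + 1) => ι)).sum_comp, Fintype.sum_prod_type,
    Finset.sum_comm]
  refine Finset.sum_le_sum fun I _ => ?_
  refine le_trans (le_of_eq (Finset.sum_congr rfl fun i _ => ?_)) (hx (wd T (List.ofFn I) g))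
  simp [Fin.consEquiv, List.ofFn_succ, xwd]

end Pool.Agent.Lib.MP_8d00da_gt.h61f
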